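import Pool.Agent.Helper99.CT.Defs

/-! # Project CT, packet EXT: a letter that can be moved to the front is a first generator -/

set_option autoImplicit false

namespace Pool.Agent.Helper46.CT

open Pool.Agent.Helper99.CT

variable {n : ℕ}

theorem mem_pts (g : Gen n) (i : Fin n) : i ∈ pts g ↔ g.p ≤ i.1 + 1 ∧ i.1 + 1 ≤ g.q := by
  simp [pts]

theorem mem_mv (π : Equiv.Perm (Fin n)) (S : Finset (Fin n)) (i : Fin n) :
    i ∈ mv π S ↔ π.symm i ∈ S := by
  unfold mv
  exact Finset.mem_map_equiv

theorem mem_mv_flip (g : Gen n) (S : Finset (Fin n)) (i : Fin n) :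
    i ∈ mv (flip g) S ↔ flipFun g i ∈ S := mem_mv (flip g) S i

theorem mv_mv (π σ : Equiv.Perm (Fin n)) (S : Finset (Fin n)) :
    mv π (mv σ S) = mv (π * σ) S := by
  ext i
  rw [mem_mv, mem_mv, mem_mv]
  rfl

theorem mv_flip_flip (g : Gen n) (S : Finset (Fin n)) : mv (flip g) (mv (flip g) S) = S := by
  ext i
  rw [mem_mv_flip, mem_mv_flip, flipFun_flipFun]

theorem mv_injective (π : Equiv.Perm (Fin n)) : Function.Injective (mv π) :=
  Finset.map_injective _

/-- A flip preserves its own interval. -/
theorem flip_pts (g : Gen n) : mv (flip g) (pts g) = pts g := by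
  ext i
  have := g.le; have := g.one_le; have := g.lt
  rw [mem_mv_flip, mem_pts, mem_pts, flipFun_val]
  split_ifs <;> omega

theorem pts_subset_iff {g h : Gen n} : pts g ⊆ pts h ↔ h.p ≤ g.p ∧ g.q ≤ h.q := by
  have h1 := g.le; have h2 := g.one_le; have h3 := g.lt
  constructor
  · intro hs
    have a1 := hs ((mem_pts g ⟨g.p - 1, by omega⟩).mpr (by simp only; omega))
    have a2 := hs ((mem_pts g ⟨g.q - 1, by omega⟩).mpr (by simp only; omega))
    rw [mem_pts] at a1 a2
    simp only at a1 a2
    omega
  · intro hs i hi
    rw [mem_pts] at hi ⊢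
    omega

theorem pts_disjoint_iff {g h : Gen n} : Disjoint (pts g) (pts h) ↔ g.q < h.p ∨ h.q < g.p := by
  have h1 := g.le; have h2 := g.one_le; have h3 := g.lt
  have k1 := h.le; have k2 := h.one_le; have k3 := h.lt
  constructor
  · intro hs
    by_contra hcon
    have a1 := (mem_pts g ⟨max g.p h.p - 1, by omega⟩).mpr (by simp only; omega)
    have a2 := (mem_pts h ⟨max g.p h.p - 1, by omega⟩).mpr (by simp only; omega)
    exact Finset.disjoint_left.mp hs a1 a2
  · intro hs
    rw [Finset.disjoint_left]
    intro i hi hj
    rw [mem_pts] at hi hj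
    omega

/-- A generator is determined by its set of points. -/
theorem pts_injective : Function.Injective (pts (n := n)) := by
  intro g h hgh
  have h1 := pts_subset_iff.mp hgh.subset
  have h2 := pts_subset_iff.mp hgh.symm.subset
  obtain ⟨p, q, _, _, _⟩ := g
  obtain ⟨p', q', _, _, _⟩ := h
  simp only at h1 h2
  obtain rfl : p = p' := by omega
  obtain rfl : q = q' := by omega
  rfl

theorem Comp_mv (π : Equiv.Perm (Fin n)) {S T : Finset (Fin n)} (h : Comp S T) :
    Comp (mv π S) (mv π T) := by
  unfold mv
  rcases h with h | h | h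
  · exact Or.inl (Finset.map_subset_map.mpr h)
  · exact Or.inr (Or.inl (Finset.map_subset_map.mpr h))
  · exact Or.inr (Or.inr ((Finset.disjoint_map _).mpr h))

/-- `First` is invariant under relabeling. -/
theorem First_map (π : Equiv.Perm (Fin n)) (v : Finset (Fin n)) (w : List (Finset (Fin n)))
    (h : First Comp v w) : First Comp (mv π v) (w.map (mv π)) := by
  induction w with
  | nil => exact h
  | cons a w ih =>
    rcases h with h | ⟨h1, h2⟩
    · exact Or.inl (by rw [h])
    · exact Or.inr ⟨Comp_mv π h1, ih h2⟩

/-- The flip of an interval inside another one. -/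
def flipGen (g h : Gen n) (h₁ : g.p ≤ h.p) (h₂ : h.q ≤ g.q) : Gen n where
  p := g.p + g.q - h.q
  q := g.p + g.q - h.p
  one_le := by have := g.one_le; omega
  lt := by have := h.lt; omega
  le := by have := g.le; omega

/-- The exchange of two compatible generators. -/
theorem exchange (a h0 : Gen n) (hc : Comp (pts a) (pts h0)) : ∃ h a' : Gen n,
    s a * s h0 = s h * s a' ∧ flip a' * flip h0 = flip h * flip a ∧
    pts h = mv (flip a) (pts h0) ∧ pts a' = mv (flip h) (pts a) := by
  have h1 := a.le; have h2 := a.one_le; have h3 := a.lt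
  have k1 := h0.le; have k2 := h0.one_le; have k3 := h0.lt
  rcases hc with hc | hc | hc
  · -- `a` inside `h0`
    obtain ⟨c1, c2⟩ := pts_subset_iff.mp hc
    refine ⟨h0, flipGen h0 a c1 c2, ?_, ?_, ?_, ?_⟩
    · exact (s_nest h0 (flipGen h0 a c1 c2) a (by simp only [flipGen]; omega)
        (by simp only [flipGen]; omega) (by simp only [flipGen]; omega)
        (by simp only [flipGen]; omega)).symm
    · ext i
      simp only [Pool.Agent.Helper99.CT.flip, Equiv.Perm.mul_apply, Equiv.coe_fn_mk, flipFun_val, flipGen]
      split_ifs <;> omega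
    · ext i
      rw [mem_mv_flip, mem_pts, mem_pts, flipFun_val]
      split_ifs <;> omega
    · ext i
      rw [mem_mv_flip, mem_pts, mem_pts, flipFun_val]
      simp only [flipGen]
      split_ifs <;> omega
  · -- `h0` inside `a`
    obtain ⟨c1, c2⟩ := pts_subset_iff.mp hc
    refine ⟨flipGen a h0 c1 c2, a, ?_, ?_, ?_, ?_⟩
    · exact s_nest a h0 (flipGen a h0 c1 c2) c1 c2 rfl rfl
    · ext i
      simp only [Pool.Agent.Helper99.CT.flip, Equiv.Perm.mul_apply, Equiv.coe_fn_mk, flipFun_val, flipGen]
      split_ifs <;> omega
    · ext i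
      rw [mem_mv_flip, mem_pts, mem_pts, flipFun_val]
      simp only [flipGen]
      split_ifs <;> omega
    · ext i
      rw [mem_mv_flip, mem_pts, mem_pts, flipFun_val]
      by_cases hi : (flipGen a h0 c1 c2).p ≤ i.1 + 1 ∧ i.1 + 1 ≤ (flipGen a h0 c1 c2).q
      · rw [if_pos hi]
        simp only [flipGen] at hi ⊢
        omega
      · rw [if_neg hi]
  · -- disjoint
    have c := pts_disjoint_iff.mp hc
    refine ⟨h0, a, s_disj a h0 c, ?_, ?_, ?_⟩
    · ext i
      simp only [Pool.Agent.Helper99.CT.flip, Equiv.Perm.mul_apply, Equiv.coe_fn_mk, flipFun_val]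
      split_ifs <;> omega
    · ext i
      rw [mem_mv_flip, mem_pts, mem_pts, flipFun_val]
      split_ifs <;> omega
    · ext i
      rw [mem_mv_flip, mem_pts, mem_pts, flipFun_val]
      split_ifs <;> omega

theorem word_cons (g : Gen n) (L : List (Gen n)) : word (g :: L) = s g * word L := by
  unfold word
  rw [List.map_cons, List.prod_cons]

theorem map_flip_flip (g : Gen n) (w : List (Finset (Fin n))) :
    (w.map (mv (flip g))).map (mv (flip g)) = w := by
  rw [List.map_map]
  have : mv (flip g) ∘ mv (flip g) = id := by
    funext S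
    exact mv_flip_flip g S
  rw [this, List.map_id]

theorem ext_ : GoalExt := by
  intro n v L
  induction L generalizing v with
  | nil => intro h; exact absurd h (by simp [letters, First])
  | cons a L0 ih =>
    intro h
    by_cases hav : pts a = v
    · refine ⟨a, L0, hav, rfl, word_cons a L0, ?_⟩
      show letters L0 = ((pts a :: (letters L0).map (mv (flip a))).erase v).map (mv (flip a))
      rw [hav, List.erase_cons_head, map_flip_flip]
    · have h' : pts a = v ∨ (Comp (pts a) v ∧ First Comp v ((letters L0).map (mv (flip a)))) := h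
      rcases h' with h' | ⟨hC, hF⟩
      · exact absurd h' hav
      · have hF' := First_map (flip a) v _ hF
        rw [map_flip_flip] at hF'
        obtain ⟨h0, L1, e1, e2, e3, e4⟩ := ih _ hF'
        have hC' : Comp (pts a) (pts h0) := by
          have := Comp_mv (flip a) hC
          rwa [flip_pts, ← e1] at this
        obtain ⟨g, a', x1, x2, x3, x4⟩ := exchange a h0 hC'
        refine ⟨g, a' :: L1, ?_, ?_, ?_, ?_⟩
        · rw [x3, e1, mv_flip_flip]
        · rw [List.length_cons, List.length_cons, e2]
        · rw [word_cons, word_cons, e3, ← mul_assoc, ← mul_assoc, x1]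
        · show pts a' :: (letters L1).map (mv (flip a')) =
            ((pts a :: (letters L0).map (mv (flip a))).erase v).map (mv (flip g))
          have hv : v = mv (flip a) (mv (flip a) v) := (mv_flip_flip a v).symm
          rw [List.erase_cons_tail (by simpa using hav), List.map_cons, ← x4]
          congr 1
          have he : ((letters L0).map (mv (flip a))).erase v =
              ((letters L0).erase (mv (flip a) v)).map (mv (flip a)) := by
            conv_lhs => rw [hv]
            exact (List.map_erase (mv_injective (flip a)) _).symm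
          rw [he, e4, List.map_map, List.map_map]
          apply List.map_congr_left
          intro S _
          show mv (flip a') (mv (flip h0) S) = mv (flip g) (mv (flip a) S)
          rw [mv_mv, mv_mv, x2]

end Pool.Agent.Helper46.CT
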